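import Pool.Agent.H35R3.PathCount

/-!
# Hierarchical long-range percolation with mean degree one, `5d/6 < α ≤ d`

With the normalisation `ζ_n` of the problem (mean degree exactly one at `λ = 0`) the largest
component is `o(L^{2nd/3})` in probability for every `α ∈ (5d/6, d]` and every `λ`.
-/

namespace Pool.Agent.Results.MP_e3f396_pr.Subcritical

open Finset Filter Topology

/-- The ball `Λ_n`: a point is its list of digits `x_1, …, x_n ∈ (ℤ/L)^d`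
(the digit `x_{i+1}` is `x i` for `i : Fin n`). -/
abbrev Ball (d L n : ℕ) : Type := Fin n → Fin d → ZMod L

/-- The largest index `i ∈ {1, …, n}` with `x_i ≠ 0`, and `0` for `x = 0`. -/
def level {d L n : ℕ} (x : Ball d L n) : ℕ :=
  univ.sup fun i : Fin n => if x i = 0 then 0 else (i : ℕ) + 1

/-- `‖x‖ = L^i` with `i` the largest index such that `x_i ≠ 0`, and `‖0‖ = 0`. -/
noncomputable def hnorm {d L n : ℕ} (x : Ball d L n) : ℝ :=
  if level x = 0 then 0 else (L : ℝ) ^ level x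

/-- The equation that defines `ζ_n`. -/
def IsZeta (d L n : ℕ) (ρ : ℝ → ℝ) (ζ : ℝ) : Prop :=
  0 < ζ ∧ ∑ i ∈ Icc 1 n, ((L : ℝ) ^ d - 1) * (L : ℝ) ^ ((i - 1) * d) *
    Real.exp (-ρ ((L : ℝ) ^ i) / ζ) = (L : ℝ) ^ (n * d) - 2

/-- `κ(x,y) = max (J(x,y)/ζ + λ L^{-4nd/3}) 0` with `J(x,y) = ρ(‖x-y‖)`. -/
noncomputable def kappa {d L n : ℕ} (ρ : ℝ → ℝ) (ζ lam : ℝ) (x y : Ball d L n) : ℝ :=
  max (ρ (hnorm (x - y)) / ζ + lam * (L : ℝ) ^ (-(4 * n * d / 3 : ℝ))) 0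

lemma level_neg {d L n : ℕ} (x : Ball d L n) : level (-x) = level x := by
  unfold level
  simp

lemma kappa_comm {d L n : ℕ} (ρ : ℝ → ℝ) (ζ lam : ℝ) (x y : Ball d L n) :
    kappa ρ ζ lam x y = kappa ρ ζ lam y x := by
  unfold kappa hnorm
  rw [← neg_sub, level_neg]

/-- The probability `1 - e^{-κ(x,y)}` of the edge `{x,y}`. -/
noncomputable def edgeProb {d L n : ℕ} (ρ : ℝ → ℝ) (ζ lam : ℝ) : Sym2 (Ball d L n) → ℝ :=
  Sym2.lift ⟨fun x y => 1 - Real.exp (-kappa ρ ζ lam x y), fun x y => by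
    simp only [kappa_comm ρ ζ lam x y]⟩

open Classical in
/-- Probability that the random graph on `V`, in which every pair `e = {x,y}` with `x ≠ y` is an
edge with probability `p e` independently, has the property `Q`. -/
noncomputable def prob {V : Type} [Fintype V] (p : Sym2 V → ℝ) (Q : SimpleGraph V → Prop) : ℝ :=
  ∑ A ∈ (univ.filter fun e : Sym2 V => ¬ e.IsDiag).powerset,
    if Q (SimpleGraph.fromEdgeSet (A : Set (Sym2 V))) then
      (∏ e ∈ A, p e) * ∏ e ∈ (univ.filter fun e : Sym2 V => ¬ e.IsDiag) \ A, (1 - p e)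
    else 0

lemma level_le {d L n : ℕ} (x : Ball d L n) : level x ≤ n := by
  unfold level
  refine Finset.sup_le fun i _ => ?_
  split_ifs
  · exact Nat.zero_le _
  · exact i.2

lemma level_snoc {d L n : ℕ} (z : Ball d L n) (t : Fin d → ZMod L) :
    level (Fin.snoc z t : Ball d L (n + 1)) = if t = 0 then level z else n + 1 := by
  have h : level (Fin.snoc z t : Ball d L (n + 1)) = (if t = 0 then 0 else n + 1) ⊔ level z := by
    unfold level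
    rw [Fin.univ_castSuccEmb, sup_cons, sup_map]
    congr 1
    · simp
    · refine sup_congr rfl fun i _ => ?_
      simp
  rw [h]
  split_ifs with ht
  · simp
  · exact sup_eq_left.2 ((level_le z).trans (Nat.le_succ n))

lemma level_eq_zero {d L n : ℕ} (x : Ball d L n) : level x = 0 ↔ x = 0 := by
  unfold level
  rw [← Nat.bot_eq_zero, Finset.sup_eq_bot_iff]
  constructor
  · intro h
    funext i
    have h1 := h i (mem_univ _)
    by_contra hne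
    have hne' : ¬ (x i = 0) := hne
    rw [if_neg hne', Nat.bot_eq_zero] at h1
    omega
  · rintro rfl i _
    simp

lemma card_digit (d L : ℕ) [NeZero L] : Fintype.card (Fin d → ZMod L) = L ^ d := by
  simp [ZMod.card]

lemma card_ball (d L n : ℕ) [NeZero L] : (Fintype.card (Ball d L n) : ℝ) = (L : ℝ) ^ (n * d) := by
  simp [ZMod.card, mul_comm n d, pow_mul]

lemma sum_level (d L n : ℕ) [NeZero L] (g : ℕ → ℝ) :
    ∑ z : Ball d L n, g (level z)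
      = g 0 + ∑ i ∈ Icc 1 n, ((L : ℝ) ^ d - 1) * (L : ℝ) ^ ((i - 1) * d) * g i := by
  induction n with
  | zero => simp [level]
  | succ n ih =>
    rw [← (Fin.snocEquiv (fun _ : Fin (n + 1) => Fin d → ZMod L)).sum_comp, Fintype.sum_prod_type]
    have h1 : ∀ t : Fin d → ZMod L, ∑ z : Ball d L n,
        g (level (Fin.snocEquiv (fun _ : Fin (n + 1) => Fin d → ZMod L) (t, z)))
        = (if t = 0 then (∑ z : Ball d L n, g (level z)) - (L:ℝ) ^ (n * d) * g (n + 1) else 0)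
          + (L:ℝ) ^ (n * d) * g (n + 1) := by
      intro t
      have h2 : ∀ z : Ball d L n, level (Fin.snocEquiv (fun _ : Fin (n + 1) => Fin d → ZMod L)
          (t, z)) = if t = 0 then level z else n + 1 := fun z => level_snoc z t
      simp only [h2]
      split_ifs with ht
      · ring
      · rw [sum_const, card_univ, nsmul_eq_mul, card_ball, zero_add]
    rw [sum_congr rfl fun t _ => h1 t, sum_add_distrib, sum_ite_eq' univ (0 : Fin d → ZMod L),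
      sum_const, card_univ, card_digit, nsmul_eq_mul, ih,
      Finset.sum_Icc_succ_top (by omega : 1 ≤ n + 1)]
    simp only [mem_univ, if_true, Nat.cast_pow, Nat.add_sub_cancel]
    ring

/-- `Σ_{i=1}^n (L^d-1)L^{(i-1)d} = L^{nd} - 1`. -/
lemma sum_coeff (d L n : ℕ) [NeZero L] :
    ∑ i ∈ Icc 1 n, ((L : ℝ) ^ d - 1) * (L : ℝ) ^ ((i - 1) * d) = (L : ℝ) ^ (n * d) - 1 := by
  have h := sum_level d L n (fun _ => 1)
  simp only [sum_const, card_univ, nsmul_eq_mul, mul_one, card_ball] at h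
  linarith

/-- Edge weight as a function of the displacement. -/
noncomputable def q {d L n : ℕ} (ρ : ℝ → ℝ) (ζ lam : ℝ) (z : Ball d L n) : ℝ :=
  1 - Real.exp (-kappa ρ ζ lam z 0)

lemma edgeProb_eq {d L n : ℕ} (ρ : ℝ → ℝ) (ζ lam : ℝ) (x y : Ball d L n) :
    edgeProb ρ ζ lam s(x, y) = q ρ ζ lam (x - y) := by
  simp [edgeProb, q, kappa]

lemma q_nonneg {d L n : ℕ} (ρ : ℝ → ℝ) (ζ lam : ℝ) (z : Ball d L n) : 0 ≤ q ρ ζ lam z := by
  unfold q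
  have : Real.exp (-kappa ρ ζ lam z 0) ≤ 1 := Real.exp_le_one_iff.2 (by
    have : 0 ≤ kappa ρ ζ lam z 0 := le_max_right _ _
    linarith)
  linarith

lemma q_le_one {d L n : ℕ} (ρ : ℝ → ℝ) (ζ lam : ℝ) (z : Ball d L n) : q ρ ζ lam z ≤ 1 := by
  unfold q
  linarith [Real.exp_pos (-kappa ρ ζ lam z 0)]

lemma edgeProb_nonneg {d L n : ℕ} (ρ : ℝ → ℝ) (ζ lam : ℝ) (e : Sym2 (Ball d L n)) :
    0 ≤ edgeProb ρ ζ lam e := by
  induction e using Sym2.ind with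
  | _ x y => rw [edgeProb_eq]; exact q_nonneg _ _ _ _

lemma edgeProb_le_one {d L n : ℕ} (ρ : ℝ → ℝ) (ζ lam : ℝ) (e : Sym2 (Ball d L n)) :
    edgeProb ρ ζ lam e ≤ 1 := by
  induction e using Sym2.ind with
  | _ x y => rw [edgeProb_eq]; exact q_le_one _ _ _ _

lemma sum_erase_eq {d L n : ℕ} [NeZero L] (f : Ball d L n → ℝ) (x : Ball d L n) :
    ∑ y ∈ univ.erase x, f (x - y) = ∑ z ∈ univ.erase 0, f z := by
  have h1 : ∑ y, f (x - y) = ∑ z, f z := (Equiv.subLeft x).sum_comp f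
  have h2 := Finset.add_sum_erase univ (fun y => f (x - y)) (mem_univ x)
  have h3 := Finset.add_sum_erase univ f (mem_univ (0 : Ball d L n))
  simp only [sub_self] at h2
  linarith

/-- The elementary inequality behind the bound on mean degrees. -/
lemma one_sub_exp_le (a β : ℝ) (ha : 0 ≤ a) :
    1 - Real.exp (-max (a + β) 0) ≤ (1 - Real.exp (-a)) + |β| := by
  have h1 : max (a + β) 0 ≤ a + |β| := max_le (by linarith [le_abs_self β])
    (by positivity)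
  have h2 : Real.exp (-(a + |β|)) ≤ Real.exp (-max (a + β) 0) := Real.exp_le_exp.2 (by linarith)
  have h3 : Real.exp (-(a + |β|)) = Real.exp (-a) * Real.exp (-|β|) := by
    rw [← Real.exp_add]; ring_nf
  have h4 : 1 - |β| ≤ Real.exp (-|β|) := by
    have := Real.add_one_le_exp (-|β|)
    linarith
  have h5 : Real.exp (-a) ≤ 1 := Real.exp_le_one_iff.2 (by linarith)
  have h6 : 0 < Real.exp (-a) := Real.exp_pos _
  have h7 : Real.exp (-a) * (1 - |β|) ≤ Real.exp (-a) * Real.exp (-|β|) :=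
    mul_le_mul_of_nonneg_left h4 h6.le
  nlinarith [abs_nonneg β]

lemma sum_pure {d L n : ℕ} [NeZero L] {ρ : ℝ → ℝ} {ζ : ℝ} (hζ : IsZeta d L n ρ ζ) :
    ∑ z ∈ univ.erase (0 : Ball d L n), (1 - Real.exp (-(ρ (hnorm z) / ζ))) = 1 := by
  have h1 := sum_level d L n (fun i => if i = 0 then 0 else 1 - Real.exp (-(ρ ((L:ℝ) ^ i) / ζ)))
  have h2 : ∑ z ∈ univ.erase (0 : Ball d L n), (1 - Real.exp (-(ρ (hnorm z) / ζ)))
      = ∑ z : Ball d L n, (if level z = 0 then (0:ℝ) else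
        1 - Real.exp (-(ρ ((L:ℝ) ^ level z) / ζ))) := by
    rw [← Finset.add_sum_erase univ _ (mem_univ (0 : Ball d L n))]
    rw [if_pos ((level_eq_zero 0).2 rfl), zero_add]
    refine sum_congr rfl fun z hz => ?_
    have hz0 : level z ≠ 0 := fun h => (mem_erase.1 hz).1 ((level_eq_zero z).1 h)
    rw [if_neg hz0, hnorm, if_neg hz0]
  rw [h2, h1, if_pos rfl, zero_add]
  have h3 : ∀ i ∈ Icc 1 n, ((L : ℝ) ^ d - 1) * (L : ℝ) ^ ((i - 1) * d) *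
      (if i = 0 then 0 else 1 - Real.exp (-(ρ ((L:ℝ) ^ i) / ζ)))
      = ((L : ℝ) ^ d - 1) * (L : ℝ) ^ ((i - 1) * d) - ((L : ℝ) ^ d - 1) *
        (L : ℝ) ^ ((i - 1) * d) * Real.exp (-ρ ((L : ℝ) ^ i) / ζ) := by
    intro i hi
    have : i ≠ 0 := by have := (mem_Icc.1 hi).1; omega
    rw [if_neg this, neg_div]
    ring
  rw [sum_congr rfl h3, sum_sub_distrib, sum_coeff, hζ.2]
  ring

/-- Mean degree bound. -/
lemma sum_q_le {d L n : ℕ} [NeZero L] {ρ : ℝ → ℝ} (hρn : ∀ r, 0 ≤ r → 0 ≤ ρ r) {ζ : ℝ}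
    (hζ : IsZeta d L n ρ ζ) (lam : ℝ) :
    ∑ z ∈ univ.erase (0 : Ball d L n), q ρ ζ lam z
      ≤ 1 + (L : ℝ) ^ (n * d) * (|lam| * (L : ℝ) ^ (-(4 * n * d / 3 : ℝ))) := by
  have hn : ∀ z : Ball d L n, 0 ≤ hnorm z := by
    intro z; unfold hnorm; split_ifs <;> positivity
  have h1 : ∀ z ∈ univ.erase (0 : Ball d L n), q ρ ζ lam z ≤
      (1 - Real.exp (-(ρ (hnorm z) / ζ))) + |lam| * (L : ℝ) ^ (-(4 * n * d / 3 : ℝ)) := by
    intro z _
    unfold q kappa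
    rw [sub_zero]
    refine (one_sub_exp_le _ _ (div_nonneg (hρn _ (hn z)) hζ.1.le)).trans (le_of_eq ?_)
    rw [abs_mul, abs_of_nonneg (Real.rpow_nonneg (Nat.cast_nonneg L) _)]
  refine (sum_le_sum h1).trans ?_
  rw [sum_add_distrib, sum_pure hζ, sum_const, nsmul_eq_mul]
  have h2 : ((univ.erase (0 : Ball d L n)).card : ℝ) ≤ (L : ℝ) ^ (n * d) := by
    rw [← card_ball d L n]
    exact_mod_cast card_le_univ _
  have h3 : 0 ≤ |lam| * (L : ℝ) ^ (-(4 * n * d / 3 : ℝ)) :=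
    mul_nonneg (abs_nonneg _) (Real.rpow_nonneg (Nat.cast_nonneg L) _)
  linarith [mul_le_mul_of_nonneg_right h2 h3]

/-- Upper bound for `ζ_n`. -/
lemma zeta_le {d L n : ℕ} [NeZero L] (hL : 2 ≤ L) {ρ : ℝ → ℝ} {α A₂ : ℝ} (hα' : α ≤ d)
    (hρ : ∀ r, 1 ≤ r → r ^ α * ρ r ≤ A₂) (hρn : ∀ r, 0 ≤ r → 0 ≤ ρ r)
    {ζ : ℝ} (hζ : IsZeta d L n ρ ζ) :
    ζ ≤ A₂ * (n * (L : ℝ) ^ ((n : ℝ) * (d - α))) := by
  have hL1 : (1 : ℝ) < L := by exact_mod_cast (by omega : 1 < L)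
  have hL0 : (0 : ℝ) < L := by linarith
  have h1 := sum_pure hζ
  have hc : ∀ i ∈ Icc 1 n, ((L : ℝ) ^ d - 1) * (L : ℝ) ^ ((i - 1) * d) *
      (1 - Real.exp (-ρ ((L : ℝ) ^ i) / ζ)) ≤ A₂ * (L : ℝ) ^ ((n : ℝ) * (d - α)) / ζ := by
    intro i hi
    have hi1 := (mem_Icc.1 hi).1
    have hi2 := (mem_Icc.1 hi).2
    have hLi : (1 : ℝ) ≤ (L : ℝ) ^ i := one_le_pow₀ hL1.le
    have e1 : 1 - Real.exp (-ρ ((L : ℝ) ^ i) / ζ) ≤ ρ ((L : ℝ) ^ i) / ζ := by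
      have := Real.add_one_le_exp (-ρ ((L : ℝ) ^ i) / ζ)
      rw [neg_div] at this ⊢
      linarith
    have e2 : ((L : ℝ) ^ d - 1) * (L : ℝ) ^ ((i - 1) * d) ≤ (L : ℝ) ^ ((i : ℝ) * d) := by
      have : (L : ℝ) ^ ((i : ℝ) * d) = (L : ℝ) ^ d * (L : ℝ) ^ ((i - 1) * d) := by
        rw [← pow_add, ← Real.rpow_natCast]
        congr 1
        push_cast [Nat.cast_sub hi1]
        ring
      rw [this]
      have : (0:ℝ) ≤ (L : ℝ) ^ ((i - 1) * d) := by positivity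
      nlinarith
    have e3 : (L : ℝ) ^ ((i : ℝ) * d) * ρ ((L : ℝ) ^ i) ≤ A₂ * (L : ℝ) ^ ((n : ℝ) * (d - α)) := by
      have h5 := hρ _ hLi
      have h6 : ((L : ℝ) ^ i) ^ α = (L : ℝ) ^ ((i : ℝ) * α) := by
        rw [← Real.rpow_natCast, ← Real.rpow_mul hL0.le]
      rw [h6] at h5
      have h7 : (L : ℝ) ^ ((i : ℝ) * d) = (L : ℝ) ^ ((i : ℝ) * (d - α)) * (L : ℝ) ^ ((i : ℝ) * α) := by
        rw [← Real.rpow_add hL0]
        congr 1
        ring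
      rw [h7, mul_assoc]
      have h8 : (L : ℝ) ^ ((i : ℝ) * (d - α)) ≤ (L : ℝ) ^ ((n : ℝ) * (d - α)) := by
        refine Real.rpow_le_rpow_of_exponent_le hL1.le ?_
        have : (i : ℝ) ≤ n := by exact_mod_cast hi2
        exact mul_le_mul_of_nonneg_right this (by linarith)
      have h9 : 0 ≤ (L : ℝ) ^ ((i : ℝ) * α) * ρ ((L : ℝ) ^ i) :=
        mul_nonneg (Real.rpow_nonneg hL0.le _) (hρn _ (by linarith))
      calc (L : ℝ) ^ ((i : ℝ) * (d - α)) * ((L : ℝ) ^ ((i : ℝ) * α) * ρ ((L : ℝ) ^ i))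
          ≤ (L : ℝ) ^ ((n : ℝ) * (d - α)) * ((L : ℝ) ^ ((i : ℝ) * α) * ρ ((L : ℝ) ^ i)) :=
            mul_le_mul_of_nonneg_right h8 h9
        _ ≤ (L : ℝ) ^ ((n : ℝ) * (d - α)) * A₂ :=
            mul_le_mul_of_nonneg_left h5 (Real.rpow_nonneg hL0.le _)
        _ = A₂ * (L : ℝ) ^ ((n : ℝ) * (d - α)) := mul_comm _ _
    have e4 : 0 ≤ ρ ((L : ℝ) ^ i) / ζ := div_nonneg (hρn _ (by linarith)) hζ.1.le
    have e5 : 0 ≤ ((L : ℝ) ^ d - 1) * (L : ℝ) ^ ((i - 1) * d) := by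
      have : (1:ℝ) ≤ (L : ℝ) ^ d := one_le_pow₀ hL1.le
      have h' : (0:ℝ) ≤ (L : ℝ) ^ ((i - 1) * d) := by positivity
      exact mul_nonneg (by linarith) h'
    calc ((L : ℝ) ^ d - 1) * (L : ℝ) ^ ((i - 1) * d) * (1 - Real.exp (-ρ ((L : ℝ) ^ i) / ζ))
        ≤ ((L : ℝ) ^ d - 1) * (L : ℝ) ^ ((i - 1) * d) * (ρ ((L : ℝ) ^ i) / ζ) :=
          mul_le_mul_of_nonneg_left e1 e5
      _ ≤ (L : ℝ) ^ ((i : ℝ) * d) * (ρ ((L : ℝ) ^ i) / ζ) := mul_le_mul_of_nonneg_right e2 e4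
      _ = (L : ℝ) ^ ((i : ℝ) * d) * ρ ((L : ℝ) ^ i) / ζ := by ring
      _ ≤ A₂ * (L : ℝ) ^ ((n : ℝ) * (d - α)) / ζ := div_le_div_of_nonneg_right e3 hζ.1.le
  have h2 : (1 : ℝ) ≤ n * (A₂ * (L : ℝ) ^ ((n : ℝ) * (d - α)) / ζ) := by
    have h3 : (1:ℝ) = ∑ i ∈ Icc 1 n, ((L : ℝ) ^ d - 1) * (L : ℝ) ^ ((i - 1) * d) *
        (1 - Real.exp (-ρ ((L : ℝ) ^ i) / ζ)) := by
      simp only [mul_sub, mul_one]
      rw [sum_sub_distrib, sum_coeff, hζ.2]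
      ring
    calc (1:ℝ) = _ := h3
      _ ≤ ∑ i ∈ Icc 1 n, A₂ * (L : ℝ) ^ ((n : ℝ) * (d - α)) / ζ := sum_le_sum hc
      _ = _ := by simp
  rw [← mul_div_assoc, le_div_iff₀ hζ.1] at h2
  linarith

/-- A point at distance `L` from the origin. -/
def z0 (d L n : ℕ) : Ball d L n := fun i => if (i : ℕ) = 0 then 1 else 0

lemma level_z0 {d L n : ℕ} (hd : 1 ≤ d) (hL : 2 ≤ L) (hn : 1 ≤ n) : level (z0 d L n) = 1 := by
  have : Fact (1 < L) := ⟨by omega⟩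
  have hne : (1 : Fin d → ZMod L) ≠ 0 := by
    intro h
    have := congrFun h ⟨0, hd⟩
    simp at this
  unfold level
  apply le_antisymm
  · refine Finset.sup_le fun i _ => ?_
    unfold z0
    by_cases hi : (i : ℕ) = 0
    · simp only [hi, if_true]
      split_ifs <;> omega
    · simp [hi]
  · have := Finset.le_sup (f := fun i : Fin n => if z0 d L n i = 0 then 0 else (i : ℕ) + 1)
      (mem_univ (⟨0, hn⟩ : Fin n))
    refine le_trans ?_ this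
    simp [z0, hne]

lemma one_sub_exp_ge {x y : ℝ} (hx : 0 ≤ x) (hx1 : x ≤ 1) (hxy : x ≤ y) :
    x / 2 ≤ 1 - Real.exp (-y) := by
  have h1 : Real.exp (-y) ≤ Real.exp (-x) := Real.exp_le_exp.2 (by linarith)
  have h2 : Real.exp (-x) ≤ 1 / (1 + x) := by
    rw [Real.exp_neg, ← one_div]
    exact one_div_le_one_div_of_le (by linarith) (by linarith [Real.add_one_le_exp x])
  have h3 : 1 / (1 + x) ≤ 1 - x / 2 := by
    rw [div_le_iff₀ (by linarith)]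
    nlinarith
  linarith

/-- The two-step non-backtracking mass. -/
lemma two_step {d L n : ℕ} [NeZero L] (ρ : ℝ → ℝ) (ζ lam : ℝ) {D : ℝ} (hD0 : 0 ≤ D)
    (hD : ∑ z ∈ univ.erase (0 : Ball d L n), q ρ ζ lam z ≤ D) (w : Ball d L n) (hw : w ≠ 0)
    (x : Ball d L n) :
    ∑ y ∈ univ.erase x, edgeProb ρ ζ lam s(x, y) *
      ∑ z ∈ (univ.erase y).erase x, edgeProb ρ ζ lam s(y, z) ≤ D ^ 2 - q ρ ζ lam w ^ 2 := by
  have hDx : ∀ y : Ball d L n, ∑ z ∈ univ.erase y, edgeProb ρ ζ lam s(y, z) ≤ D := by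
    intro y
    simp only [edgeProb_eq]
    rw [sum_erase_eq (fun z => q ρ ζ lam z)]
    exact hD
  have h1 : ∀ y ∈ univ.erase x, edgeProb ρ ζ lam s(x, y) *
      ∑ z ∈ (univ.erase y).erase x, edgeProb ρ ζ lam s(y, z) ≤
      D * edgeProb ρ ζ lam s(x, y) - edgeProb ρ ζ lam s(x, y) ^ 2 := by
    intro y hy
    have hxy : x ∈ univ.erase y := mem_erase.2 ⟨(mem_erase.1 hy).1.symm, mem_univ _⟩
    have h2 := Finset.add_sum_erase (univ.erase y) (fun z => edgeProb ρ ζ lam s(y, z)) hxy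
    have h3 : edgeProb ρ ζ lam s(y, x) = edgeProb ρ ζ lam s(x, y) := by rw [Sym2.eq_swap]
    have h4 := hDx y
    have h5 : ∑ z ∈ (univ.erase y).erase x, edgeProb ρ ζ lam s(y, z) ≤
        D - edgeProb ρ ζ lam s(x, y) := by
      rw [h3] at h2
      linarith
    have h6 := mul_le_mul_of_nonneg_left h5 (edgeProb_nonneg ρ ζ lam s(x, y))
    nlinarith
  refine (sum_le_sum h1).trans ?_
  rw [sum_sub_distrib, ← mul_sum]
  have h2 : q ρ ζ lam w ^ 2 ≤ ∑ y ∈ univ.erase x, edgeProb ρ ζ lam s(x, y) ^ 2 := by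
    have hmem : x - w ∈ univ.erase x := mem_erase.2 ⟨by simpa using hw, mem_univ _⟩
    have h3 := single_le_sum (f := fun y => edgeProb ρ ζ lam s(x, y) ^ 2)
      (fun y _ => sq_nonneg _) hmem
    refine le_trans (le_of_eq ?_) h3
    simp only [edgeProb_eq, sub_sub_cancel]
  have h3 : D * ∑ y ∈ univ.erase x, edgeProb ρ ζ lam s(x, y) ≤ D ^ 2 := by
    rw [sq]
    exact mul_le_mul_of_nonneg_left (hDx x) hD0
  linarith

/-- `prob` as an expectation. -/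
lemma prob_eq {V : Type} [Fintype V] [inst : DecidableEq V] (p : Sym2 V → ℝ)
    (Q : SimpleGraph V → Prop) [DecidablePred Q] :
    prob p Q = H35R3.PathCount.ex p (H35R3.PathCount.allE V)
      (fun A => if Q (SimpleGraph.fromEdgeSet (A : Set (Sym2 V))) then 1 else 0) := by
  have hinst : inst = fun a b => Classical.propDecidable (a = b) := Subsingleton.elim _ _
  subst hinst
  unfold prob H35R3.PathCount.ex H35R3.PathCount.wt H35R3.PathCount.allE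
  refine sum_congr rfl fun A _ => ?_
  beta_reduce
  by_cases h : Q (SimpleGraph.fromEdgeSet (A : Set (Sym2 V)))
  · rw [if_pos h, if_pos h, mul_one]
  · rw [if_neg h, if_neg h, mul_zero]

/-- Quantitative tail bound. -/
lemma prob_le {d L n : ℕ} [NeZero L] (hd : 1 ≤ d) (hL : 2 ≤ L) (hn : 1 ≤ n) {α A₁ A₂ : ℝ}
    (hα' : α ≤ d) (hA : 0 < A₁) {ρ : ℝ → ℝ} (hρn : ∀ r, 0 ≤ r → 0 ≤ ρ r)
    (hρ : ∀ r, 1 ≤ r → A₁ ≤ r ^ α * ρ r ∧ r ^ α * ρ r ≤ A₂) {ζ : ℝ} (hζ : IsZeta d L n ρ ζ)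
    {c₁ u lam : ℝ} (hc₁ : c₁ = A₁ * (L:ℝ) ^ (-α) / A₂) (hα0 : 0 ≤ α)
    (hu : u = 1 / (n * (L : ℝ) ^ ((n : ℝ) * (d - α))))
    (hlam : |lam| * (L : ℝ) ^ (-(4 * n * d / 3 : ℝ)) * (L : ℝ) ^ (n * d) ≤ c₁ ^ 2 / 64 * u ^ 2)
    {ε : ℝ} (hε : 0 < ε) :
    prob (edgeProb ρ ζ lam) (fun G : SimpleGraph (Ball d L n) =>
      ∃ x, ε * (L : ℝ) ^ (2 * n * d / 3 : ℝ) ≤ ((Set.ncard {y | G.Reachable x y} : ℕ) : ℝ))
      ≤ (L : ℝ) ^ (n * d) * (192 / (c₁ ^ 2 * u ^ 2)) / (ε * (L : ℝ) ^ (2 * n * d / 3 : ℝ)) ^ 2 := by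
  classical
  have hL1 : (1 : ℝ) < L := by exact_mod_cast (by omega : 1 < L)
  have hL0 : (0 : ℝ) < L := by linarith
  have hA12 : A₁ ≤ A₂ := (hρ 1 le_rfl).1.trans (hρ 1 le_rfl).2
  have hA2 : 0 < A₂ := hA.trans_le hA12
  have hn1 : (1 : ℝ) ≤ n := by exact_mod_cast hn
  have hLn : 1 ≤ (L : ℝ) ^ ((n : ℝ) * (d - α)) :=
    Real.one_le_rpow hL1.le (mul_nonneg (by linarith) (by linarith))
  have hv : 1 ≤ n * (L : ℝ) ^ ((n : ℝ) * (d - α)) := by nlinarith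
  have hu0 : 0 < u := by rw [hu]; positivity
  have hu1 : u ≤ 1 := by rw [hu, div_le_one (by linarith)]; exact hv
  have hLa : 0 < (L:ℝ) ^ (-α) := Real.rpow_pos_of_pos hL0 _
  have hLa1 : (L:ℝ) ^ (-α) ≤ 1 := Real.rpow_le_one_of_one_le_of_nonpos hL1.le (by linarith)
  have hc0 : 0 < c₁ := by rw [hc₁]; positivity
  have hc1 : c₁ ≤ 1 := by
    rw [hc₁, div_le_one hA2]
    nlinarith
  set b : ℝ := |lam| * (L : ℝ) ^ (-(4 * n * d / 3 : ℝ)) with hb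
  have hb0 : 0 ≤ b := mul_nonneg (abs_nonneg _) (Real.rpow_nonneg hL0.le _)
  have hN1 : 1 ≤ (L : ℝ) ^ (n * d) := one_le_pow₀ hL1.le
  have hbb : b ≤ c₁ ^ 2 / 64 * u ^ 2 := (le_mul_of_one_le_right hb0 hN1).trans hlam
  have hw0' : 0 < c₁ * u := mul_pos hc0 hu0
  have hw1' : c₁ * u ≤ 1 := mul_le_one₀ hc1 hu0.le hu1
  have hwsq : c₁ ^ 2 / 64 * u ^ 2 = (c₁ * u) ^ 2 / 64 := by ring
  -- mean degree
  set D : ℝ := 1 + c₁ ^ 2 / 64 * u ^ 2 with hD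
  have hcu0 : 0 ≤ c₁ ^ 2 / 64 * u ^ 2 := by positivity
  have hcu1 : c₁ ^ 2 / 64 * u ^ 2 ≤ 1 / 64 := by
    have : (c₁ * u) ^ 2 ≤ 1 := pow_le_one₀ hw0'.le hw1'
    rw [hwsq]
    linarith
  have hDle : ∑ z ∈ univ.erase (0 : Ball d L n), q ρ ζ lam z ≤ D := by
    refine (sum_q_le hρn hζ lam).trans ?_
    rw [hD]
    have : (L : ℝ) ^ (n * d) * b ≤ c₁ ^ 2 / 64 * u ^ 2 := by linarith [mul_comm ((L : ℝ) ^ (n * d)) b]
    linarith
  -- nearest neighbour weight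
  have hw0 : z0 d L n ≠ 0 := by
    intro h
    have := level_z0 hd hL hn
    rw [h, (level_eq_zero 0).2 rfl] at this
    omega
  have hκ : c₁ / 2 * u ≤ kappa ρ ζ lam (z0 d L n) 0 := by
    unfold kappa
    rw [sub_zero]
    refine le_trans ?_ (le_max_left _ _)
    have hh : hnorm (z0 d L n) = L := by
      unfold hnorm
      rw [level_z0 hd hL hn]
      simp
    rw [hh]
    have h1 : A₁ * (L:ℝ) ^ (-α) ≤ ρ L := by
      have := (hρ L hL1.le).1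
      rw [Real.rpow_neg hL0.le, ← div_eq_mul_inv, div_le_iff₀ (Real.rpow_pos_of_pos hL0 _)]
      linarith
    have h2 := zeta_le hL hα' (fun r hr => (hρ r hr).2) hρn hζ
    have h3 : c₁ * u ≤ ρ L / ζ := by
      rw [le_div_iff₀ hζ.1]
      calc c₁ * u * ζ ≤ c₁ * u * (A₂ * (n * (L : ℝ) ^ ((n : ℝ) * (d - α)))) :=
            mul_le_mul_of_nonneg_left h2 (by positivity)
        _ = A₁ * (L:ℝ) ^ (-α) := by
            rw [hc₁, hu]
            have : n * (L : ℝ) ^ ((n : ℝ) * (d - α)) ≠ 0 := by linarith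
            field_simp
        _ ≤ ρ L := h1
    have h4 : -b ≤ lam * (L : ℝ) ^ (-(4 * n * d / 3 : ℝ)) := by
      rw [hb, ← neg_mul]
      exact mul_le_mul_of_nonneg_right (neg_abs_le lam) (Real.rpow_nonneg hL0.le _)
    have h5 : b ≤ c₁ / 2 * u := by
      have h6 : (c₁ * u) ^ 2 ≤ c₁ * u := pow_le_of_le_one hw0'.le hw1' two_ne_zero
      have h7 : c₁ / 2 * u = c₁ * u / 2 := by ring
      rw [h7]
      linarith
    have h7 : c₁ / 2 * u = c₁ * u / 2 := by ring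
    rw [h7] at h5 ⊢
    linarith
  have hq : c₁ / 4 * u ≤ q ρ ζ lam (z0 d L n) := by
    have h7 : c₁ / 2 * u = c₁ * u / 2 := by ring
    have h8 : c₁ / 4 * u = c₁ * u / 4 := by ring
    have := one_sub_exp_ge (x := c₁ / 2 * u) (by positivity) (by rw [h7]; linarith) hκ
    unfold q
    rw [h7] at this
    rw [h8]
    linarith
  -- the two-step mass is smaller than one
  set R : ℝ := D ^ 2 - q ρ ζ lam (z0 d L n) ^ 2 with hR
  have hq1 := q_le_one ρ ζ lam (z0 d L n)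
  have hq0 := q_nonneg ρ ζ lam (z0 d L n)
  have hR0 : 0 ≤ R := by
    have h1 : q ρ ζ lam (z0 d L n) ^ 2 ≤ 1 := pow_le_one₀ hq0 hq1
    have h2 : 1 ≤ D ^ 2 := one_le_pow₀ (by linarith)
    linarith
  have hqs : c₁ ^ 2 / 16 * u ^ 2 ≤ q ρ ζ lam (z0 d L n) ^ 2 := by
    have h1 : (c₁ / 4 * u) ^ 2 ≤ q ρ ζ lam (z0 d L n) ^ 2 := pow_le_pow_left₀ (by positivity) hq 2
    have h2 : (c₁ / 4 * u) ^ 2 = c₁ ^ 2 / 16 * u ^ 2 := by ring
    linarith
  have hR1 : c₁ ^ 2 / 64 * u ^ 2 ≤ 1 - R := by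
    have h1 : c₁ ^ 2 / 16 * u ^ 2 = 4 * (c₁ ^ 2 / 64 * u ^ 2) := by ring
    have h2 : (c₁ ^ 2 / 64 * u ^ 2) ^ 2 ≤ c₁ ^ 2 / 64 * u ^ 2 :=
      pow_le_of_le_one hcu0 (by linarith) two_ne_zero
    have h3 : D ^ 2 = 1 + 2 * (c₁ ^ 2 / 64 * u ^ 2) + (c₁ ^ 2 / 64 * u ^ 2) ^ 2 := by
      rw [hD]; ring
    linarith
  have hRlt : R < 1 := by
    have : 0 < c₁ ^ 2 / 64 * u ^ 2 := by positivity
    linarith
  have hDx : ∀ y : Ball d L n, ∑ z ∈ univ.erase y, edgeProb ρ ζ lam s(y, z) ≤ D := by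
    intro y
    simp only [edgeProb_eq]
    rw [sum_erase_eq (fun z => q ρ ζ lam z)]
    exact hDle
  have hD0 : 0 ≤ D := by linarith
  have hχ : ∀ x : Ball d L n, H35R3.PathCount.ex (edgeProb ρ ζ lam)
      (H35R3.PathCount.allE (Ball d L n)) (fun A => H35R3.PathCount.csz A x)
      ≤ 192 / (c₁ ^ 2 * u ^ 2) := by
    intro x
    refine (H35R3.PathCount.ex_ncard_le (edgeProb_nonneg ρ ζ lam) (edgeProb_le_one ρ ζ lam) hD0 hR0
      hRlt hDx (two_step ρ ζ lam hD0 hDle (z0 d L n) hw0) x).trans ?_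
    rw [div_le_div_iff₀ (by linarith) (by positivity)]
    have h1 : 1 + D ≤ 3 := by linarith
    have h2 : 0 < c₁ ^ 2 * u ^ 2 := by positivity
    calc (1 + D) * (c₁ ^ 2 * u ^ 2) ≤ 3 * (c₁ ^ 2 * u ^ 2) := mul_le_mul_of_nonneg_right h1 h2.le
      _ ≤ 192 * (1 - R) := by linarith
  have ht : 0 < ε * (L : ℝ) ^ (2 * n * d / 3 : ℝ) := mul_pos hε (Real.rpow_pos_of_pos hL0 _)
  have key := H35R3.PathCount.tail_le (edgeProb_nonneg ρ ζ lam) (edgeProb_le_one ρ ζ lam) ht hχ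
    (fun A => if ∃ x : Ball d L n, ε * (L : ℝ) ^ (2 * n * d / 3 : ℝ) ≤
      ((Set.ncard {y | (SimpleGraph.fromEdgeSet (A : Set (Sym2 (Ball d L n)))).Reachable x y} : ℕ)
        : ℝ) then 1 else 0)
    (fun A => by split_ifs <;> norm_num) (fun A hA => by
      rw [if_neg]
      exact hA)
  rw [card_ball] at key
  exact le_trans (le_of_eq (prob_eq _ _)) key

/-- The final numerical identity: the quantitative bound is `C n² r^n`. -/
lemma bound_eq {d L n : ℕ} (hL : 2 ≤ L) (hn : 1 ≤ n) {α c₁ u ε : ℝ} (hc : 0 < c₁)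
    (hu : u = 1 / (n * (L : ℝ) ^ ((n : ℝ) * (d - α)))) (hε : 0 < ε) :
    (L : ℝ) ^ (n * d) * (192 / (c₁ ^ 2 * u ^ 2)) / (ε * (L : ℝ) ^ (2 * n * d / 3 : ℝ)) ^ 2
      = 192 / (c₁ ^ 2 * ε ^ 2) * ((n : ℝ) ^ 2 * ((L : ℝ) ^ (5 * d / 3 - 2 * α : ℝ)) ^ n) := by
  have hL0 : (0 : ℝ) < L := by exact_mod_cast (by omega : 0 < L)
  have hn0 : (n : ℝ) ≠ 0 := by exact_mod_cast (by omega : n ≠ 0)
  set v : ℝ := (L : ℝ) ^ ((n : ℝ) * (d - α)) with hv
  set w : ℝ := (L : ℝ) ^ (2 * n * d / 3 : ℝ) with hw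
  have hv0 : 0 < v := Real.rpow_pos_of_pos hL0 _
  have hw0 : 0 < w := Real.rpow_pos_of_pos hL0 _
  have key : (L : ℝ) ^ (n * d) * v ^ 2 = w ^ 2 * ((L : ℝ) ^ (5 * d / 3 - 2 * α : ℝ)) ^ n := by
    rw [hv, hw, ← Real.rpow_natCast (L : ℝ) (n * d), ← Real.rpow_natCast _ 2, ← Real.rpow_mul hL0.le,
      ← Real.rpow_natCast _ 2, ← Real.rpow_mul hL0.le, ← Real.rpow_natCast _ n,
      ← Real.rpow_mul hL0.le, ← Real.rpow_add hL0, ← Real.rpow_add hL0]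
    congr 1
    push_cast
    ring
  rw [hu]
  generalize (L : ℝ) ^ (5 * d / 3 - 2 * α : ℝ) = r at key ⊢
  generalize (L : ℝ) ^ (n * d) = N at key ⊢
  clear_value v w
  field_simp
  linear_combination key

/-- Existence and uniqueness of `ζ_n` (for `L^{nd} > 2`). -/
lemma existsUnique_zeta {d L n : ℕ} [NeZero L] (hd : 1 ≤ d) (hL : 2 ≤ L) (hn : 2 ≤ n)
    {α A₁ : ℝ} (hA : 0 < A₁) {ρ : ℝ → ℝ} (hρ : ∀ r, 1 ≤ r → A₁ ≤ r ^ α * ρ r) :
    ∃! ζ, IsZeta d L n ρ ζ := by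
  have hL1 : (1 : ℝ) < L := by exact_mod_cast (by omega : 1 < L)
  have hL0 : (0 : ℝ) < L := by linarith
  have hpos : ∀ i : ℕ, 0 < ρ ((L:ℝ) ^ i) := by
    intro i
    have h1 := hρ ((L:ℝ) ^ i) (one_le_pow₀ hL1.le)
    have h2 : 0 < ((L:ℝ) ^ i) ^ α := Real.rpow_pos_of_pos (by positivity) _
    by_contra hcon
    push Not at hcon
    have := mul_nonpos_of_nonneg_of_nonpos h2.le hcon
    linarith
  have hcoef : ∀ i, 0 < ((L : ℝ) ^ d - 1) * (L : ℝ) ^ ((i - 1) * d) := by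
    intro i
    have : (1:ℝ) < (L : ℝ) ^ d := one_lt_pow₀ hL1 (by omega)
    have h' : (0:ℝ) < (L : ℝ) ^ ((i - 1) * d) := by positivity
    exact mul_pos (by linarith) h'
  set F : ℝ → ℝ := fun ζ => ∑ i ∈ Icc 1 n, ((L : ℝ) ^ d - 1) * (L : ℝ) ^ ((i - 1) * d) *
    Real.exp (-ρ ((L : ℝ) ^ i) / ζ) with hF
  have hmono : StrictMonoOn F (Set.Ioi 0) := by
    intro a ha b hb hab
    rw [hF]
    refine sum_lt_sum_of_nonempty ⟨1, by simp; omega⟩ fun i _ => ?_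
    refine mul_lt_mul_of_pos_left (Real.exp_lt_exp.2 ?_) (hcoef i)
    rw [neg_div, neg_div, neg_lt_neg_iff]
    exact div_lt_div_of_pos_left (hpos i) ha hab
  have hcont : ContinuousOn F (Set.Ioi 0) := by
    rw [hF]
    refine continuousOn_finsetSum _ fun i _ => ?_
    refine continuousOn_const.mul (Real.continuous_exp.comp_continuousOn ?_)
    exact continuousOn_const.div continuousOn_id (fun x hx => ne_of_gt hx)
  have htop : Tendsto F atTop (𝓝 ((L : ℝ) ^ (n * d) - 1)) := by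
    rw [← sum_coeff d L n, hF]
    refine tendsto_finsetSum _ fun i _ => ?_
    have h1 : Tendsto (fun ζ : ℝ => Real.exp (-ρ ((L : ℝ) ^ i) / ζ)) atTop (𝓝 (Real.exp 0)) :=
      (Real.continuous_exp.tendsto 0).comp (tendsto_const_nhds.div_atTop tendsto_id)
    rw [Real.exp_zero] at h1
    simpa using h1.const_mul (((L : ℝ) ^ d - 1) * (L : ℝ) ^ ((i - 1) * d))
  have hbot : Tendsto F (𝓝[>] 0) (𝓝 0) := by
    have h3 : Tendsto F (𝓝[>] 0)
        (𝓝 (∑ i ∈ Icc 1 n, ((L : ℝ) ^ d - 1) * (L : ℝ) ^ ((i - 1) * d) * 0)) := by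
      refine tendsto_finsetSum _ fun i _ => ?_
      refine Tendsto.const_mul _ ?_
      refine Real.tendsto_exp_atBot.comp ?_
      have h2 : Tendsto (fun ζ : ℝ => -ρ ((L : ℝ) ^ i) * ζ⁻¹) (𝓝[>] 0) atBot :=
        tendsto_inv_nhdsGT_zero.const_mul_atTop_of_neg (by linarith [hpos i])
      exact h2
    simpa using h3
  have hval : (2:ℝ) < (L : ℝ) ^ (n * d) := by
    have h1 : 2 ≤ n * d := by nlinarith
    have h2 : (2:ℝ) ≤ L := by exact_mod_cast hL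
    calc (2:ℝ) < 2 ^ 2 := by norm_num
      _ ≤ (L:ℝ) ^ 2 := pow_le_pow_left₀ (by norm_num) h2 2
      _ ≤ (L : ℝ) ^ (n * d) := pow_le_pow_right₀ hL1.le h1
  obtain ⟨a, ha0, ha⟩ : ∃ a, 0 < a ∧ F a < (L : ℝ) ^ (n * d) - 2 := by
    have h1 : ∀ᶠ a in 𝓝[>] (0:ℝ), F a < (L : ℝ) ^ (n * d) - 2 :=
      hbot.eventually_lt_const (by linarith)
    obtain ⟨a, ha⟩ := (h1.and self_mem_nhdsWithin).exists
    exact ⟨a, ha.2, ha.1⟩
  obtain ⟨b, hb0, hb⟩ : ∃ b, a < b ∧ (L : ℝ) ^ (n * d) - 2 < F b := by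
    have h1 : ∀ᶠ a in atTop, (L : ℝ) ^ (n * d) - 2 < F a :=
      htop.eventually_const_lt (by linarith)
    obtain ⟨b, hb⟩ := (h1.and (eventually_gt_atTop a)).exists
    exact ⟨b, hb.2, hb.1⟩
  have hIVT := intermediate_value_Icc hb0.le (hcont.mono fun x hx => lt_of_lt_of_le ha0 hx.1)
  obtain ⟨ζ, hζ1, hζ2⟩ := hIVT ⟨ha.le, hb.le⟩
  have hζ0 : 0 < ζ := lt_of_lt_of_le ha0 hζ1.1
  refine ⟨ζ, ⟨hζ0, hζ2⟩, ?_⟩
  rintro η ⟨hη0, hη⟩
  exact hmono.injOn hη0 hζ0 (hη.trans hζ2.symm)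

/-- For every `d ≥ 1`, `L ≥ 2`, every admissible `ρ` and every `α ∈ (5d/6, d]`: the numbers `ζ_n`
exist and are unique (`n ≥ 2`); for every real `λ` the largest component of the model at `λ`
satisfies `|C_1^{(n)}| / L^{2nd/3} → 0` in probability; and this persists for every sequence
`λ_n` with `|λ_n| ≤ c n^{-2} L^{n(2α - 5d/3)}`, `c > 0` a constant depending on the model. -/
theorem result (d L : ℕ) (hd : 1 ≤ d) (hL : 2 ≤ L) [NeZero L] (α : ℝ) (hα : 5 * d / 6 < α)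
    (hα' : α ≤ d) (A₁ A₂ : ℝ) (hA : 0 < A₁) (ρ : ℝ → ℝ) (hρn : ∀ r, 0 ≤ r → 0 ≤ ρ r)
    (hρ : ∀ r, 1 ≤ r → A₁ ≤ r ^ α * ρ r ∧ r ^ α * ρ r ≤ A₂) :
    (∀ n, 2 ≤ n → ∃! ζ, IsZeta d L n ρ ζ) ∧
    ∀ ζ : ℕ → ℝ, (∀ n, 2 ≤ n → IsZeta d L n ρ (ζ n)) →
      (∀ lam ε : ℝ, 0 < ε → Tendsto (fun n : ℕ => prob (edgeProb ρ (ζ n) lam)
        (fun G : SimpleGraph (Ball d L n) => ∃ x, ε * (L : ℝ) ^ (2 * n * d / 3 : ℝ) ≤
          ((Set.ncard {y | G.Reachable x y} : ℕ) : ℝ))) atTop (𝓝 0)) ∧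
      ∃ c : ℝ, 0 < c ∧ ∀ lam : ℕ → ℝ,
        (∀ᶠ n : ℕ in atTop, |lam n| ≤ c * (n : ℝ) ^ (-2 : ℝ) *
          (L : ℝ) ^ (n * (2 * α - 5 * d / 3) : ℝ)) →
        ∀ ε : ℝ, 0 < ε → Tendsto (fun n : ℕ => prob (edgeProb ρ (ζ n) (lam n))
          (fun G : SimpleGraph (Ball d L n) => ∃ x, ε * (L : ℝ) ^ (2 * n * d / 3 : ℝ) ≤
            ((Set.ncard {y | G.Reachable x y} : ℕ) : ℝ))) atTop (𝓝 0) := by
  classical
  refine ⟨fun n hn => existsUnique_zeta hd hL hn hA fun r hr => (hρ r hr).1, fun ζ hζ => ?_⟩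
  have hL1 : (1 : ℝ) < L := by exact_mod_cast (by omega : 1 < L)
  have hL0 : (0 : ℝ) < L := by linarith
  have hA12 : A₁ ≤ A₂ := (hρ 1 le_rfl).1.trans (hρ 1 le_rfl).2
  have hA2 : 0 < A₂ := hA.trans_le hA12
  have hα0 : 0 ≤ α := le_trans (by positivity) hα.le
  set c₁ : ℝ := A₁ * (L:ℝ) ^ (-α) / A₂ with hc₁
  have hLa : 0 < (L:ℝ) ^ (-α) := Real.rpow_pos_of_pos hL0 _
  have hc0 : 0 < c₁ := by rw [hc₁]; positivity
  have main : ∀ lam : ℕ → ℝ,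
      (∀ᶠ n : ℕ in atTop, |lam n| ≤ c₁ ^ 2 / 64 * (n : ℝ) ^ (-2 : ℝ) *
        (L : ℝ) ^ (n * (2 * α - 5 * d / 3) : ℝ)) →
      ∀ ε : ℝ, 0 < ε → Tendsto (fun n : ℕ => prob (edgeProb ρ (ζ n) (lam n))
        (fun G : SimpleGraph (Ball d L n) => ∃ x, ε * (L : ℝ) ^ (2 * n * d / 3 : ℝ) ≤
          ((Set.ncard {y | G.Reachable x y} : ℕ) : ℝ))) atTop (𝓝 0) := by
    intro lam hlam ε hε
    have hr0 : 0 < (L : ℝ) ^ (5 * d / 3 - 2 * α : ℝ) := Real.rpow_pos_of_pos hL0 _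
    have hr1 : (L : ℝ) ^ (5 * d / 3 - 2 * α : ℝ) < 1 :=
      Real.rpow_lt_one_of_one_lt_of_neg hL1 (by linarith)
    have hlim : Tendsto (fun n : ℕ => 192 / (c₁ ^ 2 * ε ^ 2) *
        ((n : ℝ) ^ 2 * ((L : ℝ) ^ (5 * d / 3 - 2 * α : ℝ)) ^ n)) atTop (𝓝 0) := by
      have := (tendsto_pow_const_mul_const_pow_of_abs_lt_one 2
        (r := (L : ℝ) ^ (5 * d / 3 - 2 * α : ℝ)) (by rwa [abs_of_pos hr0])).const_mul
        (192 / (c₁ ^ 2 * ε ^ 2))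
      simpa using this
    refine squeeze_zero' ?_ ?_ hlim
    · filter_upwards with n
      unfold prob
      refine sum_nonneg fun A _ => ?_
      split_ifs
      · exact mul_nonneg (prod_nonneg fun e _ => edgeProb_nonneg _ _ _ _)
          (prod_nonneg fun e _ => by linarith [edgeProb_le_one ρ (ζ n) (lam n) e])
      · exact le_rfl
    · filter_upwards [hlam, eventually_ge_atTop 2] with n hn h2
      rw [← bound_eq (u := 1 / (n * (L : ℝ) ^ ((n : ℝ) * (d - α)))) hL (by omega) hc0 rfl hε]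
      refine prob_le hd hL (by omega) hα' hA hρn hρ (hζ n h2) hc₁ hα0 rfl ?_ hε
      have hn0 : (0 : ℝ) < n := by exact_mod_cast (by omega : 0 < n)
      have hX : 0 < (L : ℝ) ^ (-(4 * n * d / 3 : ℝ)) * (L : ℝ) ^ (n * d) := by positivity
      rw [mul_assoc]
      refine (mul_le_mul_of_nonneg_right hn hX.le).trans (le_of_eq ?_)
      have key : (L : ℝ) ^ (n * (2 * α - 5 * d / 3) : ℝ) *
          ((L : ℝ) ^ (-(4 * n * d / 3 : ℝ)) * (L : ℝ) ^ (n * d))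
          = ((L : ℝ) ^ ((n : ℝ) * (d - α)))⁻¹ ^ 2 := by
        rw [← Real.rpow_neg hL0.le, ← Real.rpow_natCast (L : ℝ) (n * d), ← Real.rpow_natCast _ 2,
          ← Real.rpow_mul hL0.le, ← Real.rpow_add hL0, ← Real.rpow_add hL0]
        congr 1
        push_cast
        ring
      have hn2 : (n : ℝ) ^ (-2 : ℝ) = (n : ℝ)⁻¹ ^ 2 := by
        rw [Real.rpow_neg hn0.le, inv_pow]
        norm_cast
      rw [mul_assoc (c₁ ^ 2 / 64 * (n : ℝ) ^ (-2 : ℝ)), key, hn2, one_div, mul_inv]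
      ring
  refine ⟨fun lam ε hε => ?_, c₁ ^ 2 / 64, by positivity, main⟩
  refine main (fun _ => lam) ?_ ε hε
  -- a fixed `λ` is eventually below the bound
  have hr0 : 0 < (L : ℝ) ^ (5 * d / 3 - 2 * α : ℝ) := Real.rpow_pos_of_pos hL0 _
  have hr1 : (L : ℝ) ^ (5 * d / 3 - 2 * α : ℝ) < 1 :=
    Real.rpow_lt_one_of_one_lt_of_neg hL1 (by linarith)
  have hlim : Tendsto (fun n : ℕ => |lam| *
      ((n : ℝ) ^ 2 * ((L : ℝ) ^ (5 * d / 3 - 2 * α : ℝ)) ^ n)) atTop (𝓝 0) := by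
    have := (tendsto_pow_const_mul_const_pow_of_abs_lt_one 2
      (r := (L : ℝ) ^ (5 * d / 3 - 2 * α : ℝ)) (by rwa [abs_of_pos hr0])).const_mul |lam|
    simpa using this
  filter_upwards [hlim.eventually_lt_const (show (0:ℝ) < c₁ ^ 2 / 64 by positivity),
    eventually_ge_atTop 1] with n hn h1
  have hn0 : (0 : ℝ) < n := by exact_mod_cast (by omega : 0 < n)
  have hn2 : (n : ℝ) ^ (-2 : ℝ) = ((n : ℝ) ^ 2)⁻¹ := by
    rw [Real.rpow_neg hn0.le]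
    norm_cast
  have hL2 : (L : ℝ) ^ (n * (2 * α - 5 * d / 3) : ℝ)
      = (((L : ℝ) ^ (5 * d / 3 - 2 * α : ℝ)) ^ n)⁻¹ := by
    rw [← Real.rpow_natCast _ n, ← Real.rpow_mul hL0.le, ← Real.rpow_neg hL0.le]
    congr 1
    ring
  rw [hn2, hL2, mul_assoc, ← mul_inv, ← div_eq_mul_inv, le_div_iff₀ (by positivity)]
  exact hn.le

end Pool.Agent.Results.MP_e3f396_pr.Subcritical
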